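import Mathlib

set_option autoImplicit false

namespace Pool.Agent.Results.MP_34bddf_lc.Counter

open Filter

noncomputable def uadd (F G : Ultrafilter ℕ+) : Ultrafilter ℕ+ := F.bind fun n => G.map (n + ·)

noncomputable def umul (F G : Ultrafilter ℕ+) : Ultrafilter ℕ+ := F.bind fun n => G.map (n * ·)

def MAX : Set (Ultrafilter ℕ+) := {F | ∀ n : ℕ+, {m | n ∣ m} ∈ F}

def Gam : Set (Ultrafilter ℕ+) := closure {F | uadd F F = F}

def IsIdeal (I : Set (Ultrafilter ℕ+)) : Prop :=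
  I.Nonempty ∧ ∀ F G, G ∈ I → umul F G ∈ I ∧ umul G F ∈ I

lemma mem_uadd (F G : Ultrafilter ℕ+) (A : Set ℕ+) :
    A ∈ uadd F G ↔ {m | {n | m + n ∈ A} ∈ G} ∈ F := Filter.mem_bind'

lemma mem_umul (F G : Ultrafilter ℕ+) (A : Set ℕ+) :
    A ∈ umul F G ↔ {m | {n | m * n ∈ A} ∈ G} ∈ F := Filter.mem_bind'

def Schur : Set (Ultrafilter ℕ+) := {F | ∀ A ∈ F, ∃ x y, x ∈ A ∧ y ∈ A ∧ x + y ∈ A}

lemma gam_sub : Gam ⊆ Schur := by
  intro G hG A hA
  obtain ⟨E, hAE, hE⟩ := mem_closure_iff.1 hG _ (ultrafilter_isOpen_basic A) hA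
  have h2 : A ∈ uadd E E := by rw [hE]; exact hAE
  rw [mem_uadd] at h2
  obtain ⟨x, hx, hx'⟩ := E.nonempty_of_mem (inter_mem hAE h2)
  obtain ⟨y, hy, hy'⟩ := E.nonempty_of_mem (inter_mem hAE hx')
  exact ⟨x, y, hx, hy, hy'⟩

lemma schur_mul (F G : Ultrafilter ℕ+) (hG : G ∈ Schur) : umul F G ∈ Schur ∧ umul G F ∈ Schur := by
  constructor
  · intro A hA
    rw [mem_umul] at hA
    obtain ⟨n, hn⟩ := F.nonempty_of_mem hA
    obtain ⟨x, y, hx, hy, hxy⟩ := hG _ hn
    exact ⟨n * x, n * y, hx, hy, by rw [← mul_add]; exact hxy⟩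
  · intro A hA
    rw [mem_umul] at hA
    obtain ⟨x, y, hx, hy, hxy⟩ := hG _ hA
    obtain ⟨k, ⟨h1, h2⟩, h3⟩ := F.nonempty_of_mem (inter_mem (inter_mem hx hy) hxy)
    exact ⟨x * k, y * k, h1, h2, by rw [← add_mul]; exact h3⟩

def fac (n : ℕ) : ℕ+ := ⟨(n + 2).factorial, Nat.factorial_pos _⟩

noncomputable def FF : Ultrafilter ℕ+ := (hyperfilter ℕ).map fac

lemma FF_max : FF ∈ MAX := by
  intro n
  refine Nat.hyperfilter_le_atTop (mem_of_superset (mem_atTop (n : ℕ)) fun k hk => ?_)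
  exact PNat.dvd_iff.2 (Nat.dvd_factorial n.pos (le_trans hk (Nat.le_add_right _ _)))

lemma key (a b c : ℕ) (hab : a ≤ b) :
    (a + 2).factorial + (b + 2).factorial ≠ (c + 2).factorial := by
  intro h
  have ha := Nat.factorial_pos (a + 2)
  have h1 : (a + 2).factorial ≤ (b + 2).factorial := Nat.factorial_le (by omega)
  rcases le_or_gt c b with hc | hc
  · have : (c + 2).factorial ≤ (b + 2).factorial := Nat.factorial_le (by omega)
    omega
  · have : (b + 2 + 1).factorial ≤ (c + 2).factorial := Nat.factorial_le (by omega)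
    rw [Nat.factorial_succ] at this
    nlinarith

lemma FF_not : FF ∉ Schur := by
  intro h
  obtain ⟨x, y, ⟨a, rfl⟩, ⟨b, rfl⟩, ⟨c, hc⟩⟩ := h (Set.range fac) range_mem_map
  have hc' : (c + 2).factorial = (a + 2).factorial + (b + 2).factorial := congrArg PNat.val hc
  rcases le_total a b with hab | hab
  · exact key a b c hab hc'.symm
  · exact key b a c hab (by omega)

lemma schur_ne : Schur.Nonempty := by
  let _ := @Ultrafilter.add ℕ+ _
  let _ := @Ultrafilter.addSemigroup ℕ+ _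
  obtain ⟨U, -, hU⟩ := exists_idempotent_in_compact_add_subsemigroup (M := Ultrafilter ℕ+)
    Ultrafilter.continuous_add_left Set.univ Set.univ_nonempty isCompact_univ
    (fun _ _ _ _ => trivial)
  refine ⟨U, gam_sub (subset_closure ?_)⟩
  ext A
  rw [mem_uadd]
  have := Ultrafilter.eventually_add U U (· ∈ A)
  rw [hU] at this
  exact this.symm

theorem result : ∃ F ∈ MAX, F ∉ ⋂₀ {I | IsIdeal I ∧ Gam ⊆ I} :=
  ⟨FF, FF_max, fun h => FF_not (h Schur ⟨⟨schur_ne, schur_mul⟩, gam_sub⟩)⟩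

end Pool.Agent.Results.MP_34bddf_lc.Counter
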